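import Pool.Agent.Run7.h96.IX.Fin

/-!
Pairs of families with many pairs of prescribed intersection size: the exponent of the extremal
number, uniformly in the intersection size and in all exponentially small densities.
-/

open Run7.h96.IX

namespace Pool.Agent.Results.MP_bc4c60_co.ExponentialRange

/-- For all `A > 0`, `B` and `ε > 0` there is `n0` such that for all `n ≥ n0`, all `0 ≤ λ ≤ n` and all
`c` with `2^(-B n) ≤ c ≤ 2^(-A n)`:
`|log₂ M(n, λ, c) - n min(2, Φ(λ/n, log₂(1/c)/n))| ≤ ε n`, where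
`Φ(l, γ) = inf over 0 ≤ s < 1, x > 0 of (log₂ N(s, x) - l log₂ x + γ) / (1 - s)` and `N(s, x)` is the
maximum of `(1-a)^s (1-b)^s + (1-a)^s b^s + a^s (1-b)^s + x a^s b^s` over `a, b ∈ [0, 1]`. -/
theorem result (A B : ℝ) (hA : 0 < A) (ε : ℝ) (hε : 0 < ε) :
    ∃ n0 : ℕ, ∀ n ≥ n0, ∀ lam : ℕ, lam ≤ n → ∀ c : ℝ,
      (2 : ℝ) ^ (-(B * n)) ≤ c → c ≤ (2 : ℝ) ^ (-(A * n)) →
      |Real.logb 2 (M n lam c) -
        n * min 2 (Phi ((lam : ℝ) / n) (-Real.logb 2 c / n))| ≤ ε * n :=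
  f_UNIF2 A B hA ε hε

end Pool.Agent.Results.MP_bc4c60_co.ExponentialRange
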