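import Pool.Agent.Run7.h96.IX.Fin

/-!
Pairs of families with many pairs of prescribed intersection size: no function of the density and
`n` alone gives the exponent.
-/

open Run7.h96.IX

namespace Pool.Agent.Results.MP_bc4c60_co.NoFunctionOfC

/-- There is no function `f(n, c)` with `log₂ M(n, λ, c) = f(n, c) + o(n)` uniformly over all
`1 ≤ λ ≤ n` and all `2^(-n) ≤ c ≤ 1`. -/
theorem result : ¬ ∃ f : ℕ → ℝ → ℝ, ∀ ε : ℝ, 0 < ε → ∃ n0 : ℕ, ∀ n ≥ n0, ∀ lam : ℕ, 1 ≤ lam →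
    lam ≤ n → ∀ c : ℝ, (2 : ℝ) ^ (-(n : ℝ)) ≤ c → c ≤ 1 →
      |Real.logb 2 (M n lam c) - f n c| ≤ ε * n :=
  f_NOF

end Pool.Agent.Results.MP_bc4c60_co.NoFunctionOfC
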