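import Pool.Agent.Run7.h96.IX.Fin3

/-!
Pairs of families with many pairs of prescribed intersection size: the exponent of the extremal
number for densities which are sub-exponential but smaller than every power of `n`.
-/

open Filter Topology Run7.h96.IX

namespace Pool.Agent.Results.MP_bc4c60_co.SuperpolynomialRange

/-- Let `0 < l < 1`, `λ_n ≤ n`, `λ_n / n → l`, `c_n > 0`, `log₂(1/c_n) / n → 0` and
`log₂(1/c_n) / log₂ n → ∞`. Then `log₂ M(n, λ_n, c_n) / n → min(2, Φ(l, 0))`, where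
`Φ(l, 0) = inf over 0 ≤ s < 1, x > 0 of (log₂ N(s, x) - l log₂ x) / (1 - s)`. -/
theorem result (l : ℝ) (hl : 0 < l) (hl1 : l < 1) (lam : ℕ → ℕ) (c : ℕ → ℝ)
    (hc : ∀ n, 0 < c n) (hle : ∀ n, lam n ≤ n)
    (hlam : Tendsto (fun n : ℕ => (lam n : ℝ) / n) atTop (𝓝 l))
    (hcl : Tendsto (fun n : ℕ => -Real.logb 2 (c n) / n) atTop (𝓝 0))
    (hcs : Tendsto (fun n : ℕ => -Real.logb 2 (c n) / Real.logb 2 n) atTop atTop) :
    Tendsto (fun n : ℕ => Real.logb 2 (M n (lam n) (c n)) / n) atTop (𝓝 (min 2 (Phi l 0))) :=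
  f_LIM3 l hl hl1 lam c hc hle hlam hcl hcs

end Pool.Agent.Results.MP_bc4c60_co.SuperpolynomialRange
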